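import Pool.Agent.X196.RW.Four

/-!
# A non-orthogonal Riesz wavelet set which does not tile multiplicatively with any multiplicity

The group is `G = ℝ` (so `Ĝ = ℝ`, with the character `x ↦ exp (2 π i x ξ)` for `ξ`), the
automorphisms are `x ↦ a x` with `a ≠ 0`, of modulus `|a|`, and the dual action is `ξ ↦ a ξ`.
-/

set_option autoImplicit false

open MeasureTheory Set
open scoped FourierTransform ENNReal ComplexConjugate

namespace Pool.Agent.Results.MP_38bcdd_an.DyadicCounterexample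

/-- A Riesz basis of a complex Hilbert space: the two-sided bounds of a Riesz sequence hold for all
finite linear combinations, and the linear span is dense. -/
def IsRieszBasis {H ι : Type} [NormedAddCommGroup H] [InnerProductSpace ℂ H] (f : ι → H) : Prop :=
  (∃ A B : ℝ, 0 < A ∧ 0 < B ∧ ∀ (s : Finset ι) (c : ι → ℂ),
    A * ∑ i ∈ s, ‖c i‖ ^ 2 ≤ ‖∑ i ∈ s, c i • f i‖ ^ 2 ∧
      ‖∑ i ∈ s, c i • f i‖ ^ 2 ≤ B * ∑ i ∈ s, ‖c i‖ ^ 2) ∧
  (Submodule.span ℂ (Set.range f)).topologicalClosure = ⊤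

/-- The function `ψ` whose Fourier transform is the indicator function of `Ω`. -/
noncomputable def psi (Ω : Set ℝ) (x : ℝ) : ℂ :=
  ∫ ξ in Ω, Complex.exp (2 * Real.pi * Complex.I * x * ξ)

/-- The function `ψ_{λ, a}(x) = |a|^{1/2} ψ(a x - λ)`. -/
noncomputable def wav (Ω : Set ℝ) (lam a x : ℝ) : ℂ := (√|a| : ℝ) * psi Ω (a * x - lam)

/-- The index set of the system: triples `(i, λ, a)` with `λ ∈ Λ_i` and `a ∈ A`. -/
abbrev Idx {m : ℕ} (A : Set ℝ) (L : Fin m → Set ℝ) : Type :=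
  {q : Fin m × ℝ × ℝ // q.2.1 ∈ L q.1 ∧ q.2.2 ∈ A}

/-- `{Ω_1, ..., Ω_m}` is a Riesz wavelet collection with respect to `A` and `Λ_1, ..., Λ_m`: the
`Ω_i` are pairwise disjoint measurable sets of finite positive measure, `A` is a countable set of
automorphisms, the `Λ_i` are countable, and the functions `ψ_{i, λ, a}` form a Riesz basis of
`L²(ℝ)`. -/
def IsRieszWaveletCollection {m : ℕ} (Om : Fin m → Set ℝ) (A : Set ℝ) (L : Fin m → Set ℝ) : Prop :=
  (∀ i, MeasurableSet (Om i) ∧ 0 < volume (Om i) ∧ volume (Om i) < ⊤) ∧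
  (∀ i j, i ≠ j → Disjoint (Om i) (Om j)) ∧
  A.Countable ∧ (∀ a ∈ A, a ≠ 0) ∧ (∀ i, (L i).Countable) ∧
  ∃ F : Idx A L → Lp ℂ 2 (volume : Measure ℝ),
    (∀ q : Idx A L, F q =ᵐ[volume] wav (Om q.1.1) q.1.2.1 q.1.2.2) ∧ IsRieszBasis F

/-- The system `{ψ_{i, λ, a}}` is orthogonal. -/
def IsOrthogonalSystem {m : ℕ} (Om : Fin m → Set ℝ) (A : Set ℝ) (L : Fin m → Set ℝ) : Prop :=
  ∀ q r : Idx A L, q ≠ r →
    ∫ x, wav (Om r.1.1) r.1.2.1 r.1.2.2 x * conj (wav (Om q.1.1) q.1.2.1 q.1.2.2 x) = 0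

/-- The dilates of `Ω = ⋃ Ω_i` by the elements of `A` are a multiplicative tiling with
multiplicity `k`: almost every point lies in exactly `k` of the sets `a Ω`, `a ∈ A`. -/
def TilesWithMultiplicity {m : ℕ} (Om : Fin m → Set ℝ) (A : Set ℝ) (k : ℕ) : Prop :=
  ∀ᵐ ξ : ℝ, {a | a ∈ A ∧ ξ ∈ (fun t => a * t) '' ⋃ i, Om i}.encard = k

open Pool.Agent.X196.RW

/-- the index map -/
noncomputable def idx : Idx (m := 1) AA (fun _ => range (fun k : ℤ => (k : ℝ))) ≃ ℤ × AA where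
  toFun q := (q.2.1.choose, ⟨q.1.2.2, q.2.2⟩)
  invFun p := ⟨(0, (p.1 : ℝ), p.2), ⟨p.1, rfl⟩, p.2.2⟩
  left_inv q := by
    apply Subtype.ext
    refine Prod.ext (Subsingleton.elim _ _) (Prod.ext ?_ rfl)
    exact q.2.1.choose_spec
  right_inv p := by
    refine Prod.ext ?_ rfl
    have h : ∃ y : ℤ, (fun k : ℤ => (k : ℝ)) y = (p.1 : ℝ) := ⟨p.1, rfl⟩
    exact Int.cast_injective (α := ℝ) h.choose_spec

lemma idx_spec (q : Idx (m := 1) AA (fun _ => range (fun k : ℤ => (k : ℝ)))) :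
    ((idx q).1 : ℝ) = q.1.2.1 ∧ (((idx q).2 : AA) : ℝ) = q.1.2.2 := ⟨q.2.1.choose_spec, rfl⟩

/-- the elements of the system -/
noncomputable def FF (p : ℤ × AA) : Lp ℂ 2 (volume : Measure ℝ) := 𝓕⁻ (LL WO p)

lemma FF_coe (p : ℤ × AA) : FF p =ᵐ[volume] wav WO.set p.1 p.2 := by
  have h1 := fourierInv_toLp (DD_integrable WO.meas WO.sub p.1 (AA_ne p.2.2))
    (DD_memLp WO.meas WO.sub p.1 (AA_ne p.2.2) 2)
  refine h1.trans (Filter.Eventually.of_forall fun x => ?_)
  show 𝓕⁻ (DD WO.set p.1 p.2) x = _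
  rw [fourierInv_DD WO p.1 (AA_ne p.2.2)]
  unfold wav psi
  push_cast
  rfl

lemma inner_FF (p q : ℤ × AA) : inner ℂ (FF p) (FF q) = inner ℂ (LL WO p) (LL WO q) := by
  unfold FF
  rw [← Lp.inner_fourier_eq, FourierTransform.fourier_fourierInv_eq,
    FourierTransform.fourier_fourierInv_eq]

lemma riesz : IsRieszBasis FF := by
  refine ⟨⟨1 / 4, 4, by norm_num, by norm_num, fun s c => ?_⟩, ?_⟩
  · have h1 : ‖∑ i ∈ s, c i • FF i‖ = ‖∑ i ∈ s, c i • LL WO i‖ := by
      have h2 : ∑ i ∈ s, c i • FF i = 𝓕⁻ (∑ i ∈ s, c i • LL WO i) := by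
        have h3 := map_sum (Lp.fourierTransformₗᵢ ℝ ℂ).symm (fun i => c i • LL WO i) s
        have h4 : (Lp.fourierTransformₗᵢ ℝ ℂ).symm (∑ i ∈ s, c i • LL WO i) =
          𝓕⁻ (∑ i ∈ s, c i • LL WO i) := rfl
        rw [← h4, h3]
        refine Finset.sum_congr rfl fun i _ => ?_
        rw [map_smul]
        rfl
      rw [h2, ← Lp.norm_fourier_eq, FourierTransform.fourier_fourierInv_eq]
    rw [h1]
    exact bounds s c
  · rw [Submodule.topologicalClosure_eq_top_iff, Submodule.eq_bot_iff]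
    intro g hg
    have h1 : ∀ p, inner ℂ (LL WO p) (𝓕 g) = 0 := by
      intro p
      have h2 : inner ℂ (FF p) g = 0 := hg _ (Submodule.subset_span ⟨p, rfl⟩)
      rw [← Lp.inner_fourier_eq] at h2
      unfold FF at h2
      rwa [FourierTransform.fourier_fourierInv_eq] at h2
    have h2 := complete _ h1
    have h3 : ‖g‖ = 0 := by
      rw [← Lp.norm_fourier_eq, h2, norm_zero]
    exact norm_eq_zero.1 h3

lemma IsRieszBasis.comp_equiv {H ι κ : Type} [NormedAddCommGroup H] [InnerProductSpace ℂ H]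
    {f : ι → H} (hf : IsRieszBasis f) (e : κ ≃ ι) : IsRieszBasis (fun q => f (e q)) := by
  obtain ⟨⟨A, B, hA, hB, hAB⟩, hd⟩ := hf
  refine ⟨⟨A, B, hA, hB, fun s c => ?_⟩, ?_⟩
  · have h1 := hAB (s.map e.toEmbedding) (fun p => c (e.symm p))
    rw [Finset.sum_map, Finset.sum_map] at h1
    simpa using h1
  · have h1 : range (fun q => f (e q)) = range f := e.surjective.range_comp f
    rw [h1]
    exact hd

/-- **A counterexample.** For `Ω = (1, 2] ∪ (5/2, 3]`, `m = 1`, `A = {± 2^n : n ∈ ℤ}` and `Λ = ℤ`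
the system is a non-orthogonal Riesz basis of `L²(ℝ)`, and the dilates of `Ω` by `A` are not a
multiplicative tiling with any multiplicity. -/
theorem result :
    IsRieszWaveletCollection (m := 1) (fun _ => Ioc 1 2 ∪ Ioc (5 / 2) 3)
      {a : ℝ | ∃ n : ℤ, |a| = 2 ^ n} (fun _ => range (fun k : ℤ => (k : ℝ))) ∧
    ¬ IsOrthogonalSystem (m := 1) (fun _ => Ioc 1 2 ∪ Ioc (5 / 2) 3)
      {a : ℝ | ∃ n : ℤ, |a| = 2 ^ n} (fun _ => range (fun k : ℤ => (k : ℝ))) ∧
    ∀ k : ℕ, ¬ TilesWithMultiplicity (m := 1) (fun _ => Ioc 1 2 ∪ Ioc (5 / 2) 3)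
      {a : ℝ | ∃ n : ℤ, |a| = 2 ^ n} k := by
  refine ⟨⟨?_, ?_, AA_countable, fun a ha => AA_ne ha, fun _ => countable_range _,
    fun q => FF (idx q), ?_, ?_⟩, ?_, ?_⟩
  · intro _
    refine ⟨WO.meas, ?_, ?_⟩
    · refine lt_of_lt_of_le ?_ (measure_mono subset_union_left)
      rw [Real.volume_Ioc]
      norm_num
    · refine lt_of_le_of_lt (measure_mono WO.sub) ?_
      rw [Real.volume_Icc]
      exact ENNReal.ofReal_lt_top
  · intro i j hij
    exact absurd (Subsingleton.elim i j) hij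
  · intro q
    have h1 := FF_coe (idx q)
    rw [(idx_spec q).1, (idx_spec q).2] at h1
    exact h1
  · exact riesz.comp_equiv idx
  · intro hO
    have h2A : (2 : ℝ) ∈ AA := by simpa using AA_two one_mem_AA
    have h1 := hO (idx.symm (0, ⟨1, one_mem_AA⟩)) (idx.symm (0, ⟨2, h2A⟩)) (by
      intro h
      have h2 := (Prod.mk.inj (idx.symm.injective h)).2
      have h3 : (1 : ℝ) = 2 := congrArg Subtype.val h2
      norm_num at h3)
    have h2 : inner ℂ (FF (0, ⟨1, one_mem_AA⟩)) (FF (0, ⟨2, h2A⟩)) = 0 := by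
      rw [← h1, L2.inner_def]
      apply integral_congr_ae
      filter_upwards [FF_coe (0, ⟨1, one_mem_AA⟩), FF_coe (0, ⟨2, h2A⟩)] with x h3 h4
      rw [h3, h4]
      rfl
    rw [inner_FF, inner_LL] at h2
    have h3 : (fun t => DD WO.set 0 2 t * conj (DD WO.set 0 1 t)) =
        (Ioc (5 / 2 : ℝ) 3).indicator (fun _ => (((√2)⁻¹ : ℝ) : ℂ)) := by
      funext t
      have h4 : ∀ s, ex 0 s = 1 := by
        intro s
        unfold ex
        simp
      have h5 : ∀ a : ℝ, DD WO.set 0 a t = ((√|a|)⁻¹ : ℝ) * WO.set.indicator (fun _ => 1) (t / a) := by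
        intro a
        rw [DD_eq]
        congr 1
        by_cases h6 : t / a ∈ WO.set
        · rw [indicator_of_mem h6, indicator_of_mem h6, h4]
        · rw [indicator_of_notMem h6, indicator_of_notMem h6]
      rw [h5, h5]
      by_cases ht : t ∈ Ioc (5 / 2 : ℝ) 3
      · have h6 : t / 2 ∈ WO.set := Or.inl ⟨by linarith [ht.1], by linarith [ht.2]⟩
        have h7 : t / 1 ∈ WO.set := by
          rw [div_one]
          exact Or.inr ht
        rw [indicator_of_mem h6, indicator_of_mem h7, indicator_of_mem ht]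
        simp
      · rw [indicator_of_notMem ht]
        by_cases h6 : t / 2 ∈ WO.set
        · have h7 : t / 1 ∉ WO.set := by
            rw [div_one]
            rintro (h8 | h8)
            · rcases h6 with h9 | h9
              · have : 1 < t / 2 := h9.1
                linarith [h8.2]
              · have : 5 / 2 < t / 2 := h9.1
                linarith [h8.2]
            · exact ht h8
          rw [indicator_of_notMem h7]
          simp
        · rw [indicator_of_notMem h6]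
          simp
    have h4 : ∫ t, DD WO.set 0 2 t * conj (DD WO.set 0 1 t) = 0 := h2
    rw [h3, integral_indicator measurableSet_Ioc, setIntegral_const, measureReal_def,
      Real.volume_Ioc] at h4
    norm_num at h4
  · intro k hk
    have key : ∀ x y : ℝ, x < y → ∃ ξ ∈ Ioo x y,
        {a | a ∈ {a : ℝ | ∃ n : ℤ, |a| = 2 ^ n} ∧ ξ ∈ (fun t => a * t) ''
          ⋃ _ : Fin 1, (Ioc (1 : ℝ) 2 ∪ Ioc (5 / 2) 3)}.encard = k := by
      intro x y hxy
      by_contra hcon
      push Not at hcon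
      have h1 : Ioo x y ⊆ {ξ : ℝ | ¬ {a | a ∈ {a : ℝ | ∃ n : ℤ, |a| = 2 ^ n} ∧ ξ ∈ (fun t => a * t) ''
          ⋃ _ : Fin 1, (Ioc (1 : ℝ) 2 ∪ Ioc (5 / 2) 3)}.encard = k} := fun ξ hξ => hcon ξ hξ
      have h2 : volume (Ioo x y) = 0 := measure_mono_null h1 hk
      rw [Real.volume_Ioo, ENNReal.ofReal_eq_zero] at h2
      linarith
    have hmem : ∀ a ∈ AA, ∀ ξ : ℝ, ξ ∈ (fun t => a * t) '' ⋃ _ : Fin 1, (Ioc (1 : ℝ) 2 ∪ Ioc (5 / 2) 3) ↔
        ξ / a ∈ WO.set := by
      intro a ha ξ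
      have ha0 : a ≠ 0 := AA_ne ha
      constructor
      · rintro ⟨t, ht, rfl⟩
        obtain ⟨_, ht⟩ := mem_iUnion.1 ht
        show a * t / a ∈ _
        rw [mul_div_cancel_left₀ _ ha0]
        exact ht
      · intro h
        exact ⟨ξ / a, mem_iUnion.2 ⟨0, h⟩, mul_div_cancel₀ _ ha0⟩
    -- multiplicity one near `1`
    obtain ⟨ξ, hξ, hξk⟩ := key 1 (5 / 4) (by norm_num)
    have h1 : {a | a ∈ {a : ℝ | ∃ n : ℤ, |a| = 2 ^ n} ∧ ξ ∈ (fun t => a * t) ''
          ⋃ _ : Fin 1, (Ioc (1 : ℝ) 2 ∪ Ioc (5 / 2) 3)} = {1} := by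
      ext a
      constructor
      · rintro ⟨ha, h⟩
        have haA : a ∈ AA := ha
        rw [hmem a haA] at h
        have h3 : (1 : ℝ) * ξ = a * (ξ / a) := by
          rw [one_mul, mul_div_cancel₀ _ (AA_ne haA)]
        rcases h with h | h
        · exact (AA_unique one_mem_AA haA h3 ⟨hξ.1, by linarith [hξ.2]⟩ h).symm
        · exfalso
          have h4 : 5 / 2 < ξ / a := h.1
          have h5 : ξ / a ≤ 3 := h.2
          have h6 : (1 : ℝ) * ξ = (2 * a) * (ξ / a / 2) := by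
            rw [h3]
            ring
          have h7 := AA_unique one_mem_AA (AA_two haA) h6 ⟨hξ.1, by linarith [hξ.2]⟩
            ⟨by linarith, by linarith⟩
          have h8 : a = 1 / 2 := by linarith
          rw [h8] at h4
          have h9 : ξ / (1 / 2) = 2 * ξ := by ring
          rw [h9] at h4
          linarith [hξ.2]
      · rintro rfl
        refine ⟨one_mem_AA, ?_⟩
        rw [hmem 1 one_mem_AA, div_one]
        exact Or.inl ⟨hξ.1, by linarith [hξ.2]⟩
    rw [h1, encard_singleton] at hξk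
    -- multiplicity at least two near `3/2`
    obtain ⟨η, hη, hηk⟩ := key (5 / 4) (3 / 2) (by norm_num)
    rw [← hξk] at hηk
    rw [encard_eq_one] at hηk
    obtain ⟨b, hb⟩ := hηk
    have hhalf : (1 / 2 : ℝ) ∈ AA := ⟨-1, by norm_num⟩
    have h2 : (1 : ℝ) ∈ ({b} : Set ℝ) := by
      rw [← hb]
      refine ⟨one_mem_AA, ?_⟩
      rw [hmem 1 one_mem_AA, div_one]
      exact Or.inl ⟨by linarith [hη.1], by linarith [hη.2]⟩
    have h3 : (1 / 2 : ℝ) ∈ ({b} : Set ℝ) := by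
      rw [← hb]
      refine ⟨hhalf, ?_⟩
      rw [hmem _ hhalf]
      refine Or.inr ⟨?_, ?_⟩
      · have : η / (1 / 2) = 2 * η := by ring
        rw [this]
        linarith [hη.1]
      · have : η / (1 / 2) = 2 * η := by ring
        rw [this]
        linarith [hη.2]
    rw [mem_singleton_iff] at h2 h3
    rw [← h2] at h3
    norm_num at h3

end Pool.Agent.Results.MP_38bcdd_an.DyadicCounterexample
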